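import Pool.Agent.Results.MP_95d09c_al.KrullOneIdeal

/-!
Two consequences of `KrullOneIdeal`: the version with annihilator primes, and the rings of left
Krull dimension at most two.
-/

set_option autoImplicit false

namespace Pool.Agent.Lib.MP_95d09c_al.K2

open CategoryTheory Pool.Agent.Results.MP_95d09c_al.KrullOneIdeal K2One

variable (R : Type) [Ring R] (h0 : IsLocalRing R) (h1 : IsNoetherianRing R)
    (h2 : IsNoetherianRing Rᵐᵒᵖ)
    (hL : ∃ n : ℕ, ∀ M : ModuleCat.{0} R, ∃ (P : ℕ → ModuleCat.{0} R)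
      (d : ∀ i : ℕ, P (i + 1) ⟶ P i) (ε : P 0 ⟶ M),
      (∀ i, Module.Projective R (P i)) ∧ Function.Surjective ε.hom ∧
      LinearMap.range (d 0).hom = LinearMap.ker ε.hom ∧
      (∀ i, LinearMap.range (d (i + 1)).hom = LinearMap.ker (d i).hom) ∧
      (∀ i, n < i → Subsingleton (P i)))
    (hR : ∃ n : ℕ, ∀ M : ModuleCat.{0} Rᵐᵒᵖ, ∃ (P : ℕ → ModuleCat.{0} Rᵐᵒᵖ)
      (d : ∀ i : ℕ, P (i + 1) ⟶ P i) (ε : P 0 ⟶ M),
      (∀ i, Module.Projective Rᵐᵒᵖ (P i)) ∧ Function.Surjective ε.hom ∧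
      LinearMap.range (d 0).hom = LinearMap.ker ε.hom ∧
      (∀ i, LinearMap.range (d (i + 1)).hom = LinearMap.ker (d i).hom) ∧
      (∀ i, n < i → Subsingleton (P i)))

include h0 h1 h2 hL hR

/-- The version with annihilator primes. -/
theorem domain_of_primes (hK : ∀ P Q : TwoSidedIdeal R, Prm P → Prm Q → P < Q →
    (∃ x : R, x ≠ 0 ∧ ∀ q ∈ Q, q * x = 0) → KrullLE R 1 (R ⧸ Q.asIdeal)) : IsDomain R := by
  by_contra hc
  refine hc (@NoZeroDivisors.to_isDomain R _ _ ⟨fun hab => eq_zero_or_eq_zero' (gdf_of_res' hL)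
    (gdf_of_res' hR) (fun P Q hP hQ hPQ ⟨x, hx, hx'⟩ => (hc ?_).elim) hab⟩)
  refine result R h0 h1 h2 hL hR ⟨LinearMap.range (LinearMap.toSpanSingleton R R x),
    fun h => hx ?_, (hK P Q hP hQ hPQ ⟨x, hx, hx'⟩).of_surj
      (Q.asIdeal.liftQ (LinearMap.toSpanSingleton R R x).rangeRestrict
        fun q hq => Subtype.ext (hx' q hq)) ?_⟩
  · exact (Submodule.eq_bot_iff _).1 h x ⟨1, one_smul _ _⟩
  · rintro ⟨_, r, rfl⟩
    exact ⟨Submodule.Quotient.mk r, rfl⟩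

/-- A regular local ring of left Krull dimension at most two is a domain. -/
theorem domain_of_dim_two (h : KrullLE R 2 R) : IsDomain R := by
  refine domain_of_primes R h0 h1 h2 hL hR fun P Q hP _ hPQ _ => ?_
  obtain ⟨a, haQ, haP⟩ := SetLike.exists_of_lt hPQ
  obtain ⟨c, hc, hc'⟩ := exists_reg_ideal (P := P) hP haQ haP
  have h2 := (h.of_surj _ (lsub P).mkQ_surjective).coker (rho P c) (rho_inj hc')
  let g : (R ⧸ lsub P) →ₗ[R] (R ⧸ lsub Q) :=
    (lsub P).mapQ (lsub Q) LinearMap.id fun x hx => hPQ.le hx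
  refine h2.of_surj ((LinearMap.range (rho P c)).liftQ g ?_) ?_
  · rintro _ ⟨q, rfl⟩
    obtain ⟨x, rfl⟩ := (lsub P).mkQ_surjective q
    exact mk_eq_zero.2 (Q.mul_mem_left x c hc)
  · intro q
    obtain ⟨x, rfl⟩ := (lsub Q).mkQ_surjective q
    exact ⟨Submodule.Quotient.mk ((lsub P).mkQ x), rfl⟩

end Pool.Agent.Lib.MP_95d09c_al.K2
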