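import Pool.Agent.Lib.MP_95d09c_al.K2.Top

/-!
No maximal annihilator prime of a regular local ring has a factor ring of dimension one.
-/

set_option autoImplicit false
set_option linter.unusedSectionVars false

namespace Pool.Agent.Lib.MP_95d09c_al.K2

open MulOpposite

variable {R : Type} [Ring R] [IsLocalRing R] [IsNoetherianRing R] [IsNoetherianRing Rᵐᵒᵖ]

theorem final' {a b : Type} [Fintype b] {c : ℕ} {α : Matrix a b R} {β : Matrix b (Fin c) R}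
    (Ψ : IsTop α β) {Q K : TwoSidedIdeal R} (hQ : Prm Q)
    (hK : ∀ x, x ∈ K ↔ ∀ p ∈ Q, p * x = 0) (htf : ∀ c, Reg Q c → ∀ x ∈ K, c * x = 0 → x = 0)
    (hKu : ∀ x ∈ K, ¬ IsUnit x)
    {x1 : R} (hx1 : x1 ∈ K) (hx1' : x1 ≠ 0) {c0 : R} (hc0 : Reg Q c0) (hc0' : ¬ IsUnit c0)
    (hsoc : ∀ x : R, (∀ μ, ¬ IsUnit μ → x * μ = 0) → x = 0)
    (h1 : ∀ c, Reg Q c → ∃ j, ∀ w ∈ Wd R j, ∃ r, w - r * c ∈ Q) : False := by
  classical
  have := noeth_opop (R := R)
  have := op_local (Λ := R)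
  have := isNoetherian_right (Λ := R)
  obtain ⟨Q', hQ', -, ⟨x2, hx2, hx2', hx2''⟩, htf'⟩ := exists_ann_prime K.op (x0 := op x1)
    (mop.2 hx1) (by simpa using hx1')
  let X : TwoSidedIdeal R := (killed K.op Q' fun a ha r => Q'.mul_mem_right a r ha).unop
  have hX : ∀ x, x ∈ X ↔ x ∈ K ∧ ∀ p ∈ Q', x * p.unop = 0 := fun x => by
    rw [TwoSidedIdeal.mem_unop_iff, mem_killed, mop]
    refine and_congr Iff.rfl (forall₂_congr fun p _ => ?_)
    rw [← unop_eq_zero_iff]; rfl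
  have hx3 : x2.unop ∈ X := (hX _).2 ⟨mop.1 hx2, fun p hp => congrArg unop (hx2'' p hp)⟩
  obtain ⟨d, hd, hd'⟩ : ∃ d ∈ mx Rᵐᵒᵖ, Reg Q' d := by
    by_contra hc
    refine hx2' (unop_injective (hsoc _ fun μ hμ => ((hX _).1 hx3).2 (op μ) ?_))
    by_contra h
    exact hc (exists_reg_ideal hQ' (mem_mx.2 (by simpa using hμ)) h)
  have hdu : ¬ IsUnit d.unop := fun h => mem_mx.1 hd (by simpa using h.op)
  have hinj : ∀ x ∈ X, x * d.unop = 0 → x = 0 := fun x hx h =>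
    op_injective (htf' d hd' (op x) (mop.2 ((hX x).1 hx).1)
      (fun p hp => unop_injective (((hX x).1 hx).2 p hp)) (unop_injective h))
  have hcl : ∀ z : Fin c → R, (∀ i, act β z i ∈ X) → ∀ j, z j ∈ X := by
    refine Ψ.cl X fun x hx => ?_
    let S : TwoSidedIdeal R := TwoSidedIdeal.mk' {x | ∀ μ, ¬ IsUnit μ → x * μ ∈ X}
      (fun μ _ => by rw [zero_mul]; exact X.zero_mem)
      (fun ha hb μ hμ => by rw [add_mul]; exact X.add_mem (ha μ hμ) (hb μ hμ))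
      (fun ha μ hμ => by rw [neg_mul]; exact X.neg_mem (ha μ hμ))
      (fun ha μ hμ => by rw [mul_assoc]; exact X.mul_mem_left _ _ (ha μ hμ))
      (fun ha μ hμ => by rw [mul_assoc]; exact ha _ (nu_mul_left _ hμ))
    have hS : ∀ x, x ∈ S ↔ ∀ μ, ¬ IsUnit μ → x * μ ∈ X := fun x => by simp [S]
    obtain ⟨i, hi⟩ := left_nil_of_right_nil (U := S) (U' := X) (j := 1) (by
      rintro _ ⟨μ, w, hμ, -, rfl⟩ y hy
      exact (hS y).1 hy _ (nu_mul_right hμ w))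
    have hxK : x ∈ K := (hK x).2 fun p hp => hsoc _ fun μ hμ => by
      rw [mul_assoc]
      exact (hK _).1 ((hX _).1 (hx μ hμ)).1 p hp
    refine (hX x).2 ⟨hxK, fun p hp => htf _ (hc0.pow i) _ (K.mul_mem_right _ _ hxK) ?_⟩
    rw [← mul_assoc]
    exact ((hX _).1 (hi _ (pow_mem_Wd hc0' i) x ((hS x).2 hx))).2 p hp
  let D : Submodule R R := (lsub X).map (LinearMap.toSpanSingleton R R d.unop)
  obtain ⟨x0, hx0, hx0'⟩ : ∃ x0 ∈ X, x0 ∉ D := by
    by_contra hc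
    push Not at hc
    have h2 : rsub X ≤ ⊥ := by
      refine nak (IsNoetherian.noetherian _) fun x hx => Submodule.mem_sup_right ?_
      obtain ⟨z, hz, rfl⟩ := hc x hx
      exact smul_mem_msub (w := d) ⟨d, 1, mem_mx.1 hd, rfl, (mul_one d).symm⟩ hz
    exact hx2' (unop_injective (h2 hx3))
  obtain ⟨e, he, z0, hz0⟩ := exists_reg_smul hQ (M := lsub X)
    (fun p hp x => Subtype.ext ((hK _).1 ((hX _).1 x.2).1 p hp))
    ((LinearMap.toSpanSingleton R R d.unop).restrict fun x hx => X.mul_mem_right x _ hx)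
    (by
      rw [injective_iff_map_eq_zero]
      exact fun x hx => Subtype.ext (hinj x x.2 (congrArg Subtype.val hx))) ⟨x0, hx0⟩
  obtain ⟨j, hj⟩ := h1 e he
  obtain ⟨x, hx, hx', hxm⟩ := exists_socle (X := lsub X) (D := D) j x0 hx0 hx0' fun w hw => by
    obtain ⟨r, hr⟩ := hj w hw
    have h2 : (w - r * e) * x0 = 0 := (hK _).1 ((hX _).1 hx0).1 _ hr
    rw [sub_mul, sub_eq_zero, mul_assoc] at h2
    rw [h2]
    exact D.smul_mem r ⟨z0, z0.2, congrArg Subtype.val hz0⟩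
  obtain ⟨k⟩ := Ψ.pos
  choose z hz hz' using fun i => hxm _ (Ψ.min i k)
  have h3 : act β (Pi.single k x) = fun i => z i * d.unop := by
    ext i
    have : z i * d.unop = β i k * x := hz' i
    rw [this]
    simp [act, Pi.single_apply]
  obtain ⟨w, hw⟩ := Ψ.ex z (fun i => hKu _ ((hX _).1 (hz i)).1)
    (funext fun i => hinj _ (act_mem (V := lsub X) _ hz i) (by
      have := congrFun (act_act Ψ.zero (Pi.single k x)) i
      rw [h3] at this
      exact (act_smul α z d.unop i).symm.trans this))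
  have h4 := hcl w (fun i => hw ▸ hz i) k
  have h5 := Ψ.inj (Pi.single k x - fun j => w j * d.unop) (by
    rw [act_sub, h3, sub_eq_zero, hw]
    exact funext fun i => (act_smul β w d.unop i).symm)
  refine hx' ⟨w k, h4, ?_⟩
  have := congrFun h5 k
  simp only [Pi.sub_apply, Pi.single_eq_same, Pi.zero_apply, sub_eq_zero] at this
  exact this.symm

theorem eq_zero_or_eq_zero' (hL : GDf R) (hR : GDf Rᵐᵒᵖ)
    (h1 : ∀ P Q : TwoSidedIdeal R, Prm P → Prm Q → P < Q → (∃ x, x ≠ 0 ∧ ∀ q ∈ Q, q * x = 0) →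
      ∀ c, Reg Q c → ∃ j, ∀ w ∈ Wd R j, ∃ r, w - r * c ∈ Q)
    {a b : R} (hab : a * b = 0) : a = 0 ∨ b = 0 := by
  by_contra hc
  push Not at hc
  have := op_local (Λ := R)
  have := isNoetherian_right (Λ := R)
  obtain ⟨N, hN, hN'⟩ := exists_nil' hL
  obtain ⟨x0, hx0, hx0'⟩ : ∃ x0 ∈ N, x0 ≠ 0 := by
    rcases hN' a b (hab ▸ N.zero_mem) with h | h
    · exact ⟨a, h, hc.1⟩
    · exact ⟨b, h, hc.2⟩
  have hx0u : ¬ IsUnit x0 := ((hN x0).1 hx0).not_isUnit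
  have hsoc : ∀ x : R, (∀ μ, ¬ IsUnit μ → x * μ = 0) → x = 0 := fun x hx =>
    no_right_socle' hL hx0u hx0' hx
  have hsoc' : ∀ x : R, (∀ μ, ¬ IsUnit μ → μ * x = 0) → x = 0 := fun x hx =>
    op_injective (no_right_socle' hR (ν := op x0) (by simpa using hx0u) (by simpa using hx0')
      fun μ hμ => unop_injective (hx μ.unop (by simpa using hμ)))
  obtain ⟨Q, hQ, hQ1, ⟨x1, hx1, hx1', hx1''⟩, htf⟩ := exists_ann_prime N hx0 hx0'
  obtain ⟨y, hy, hyQ⟩ : ∃ y, y ∉ N ∧ y ∈ Q := by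
    obtain ⟨s, hs⟩ := IsNoetherian.noetherian (rsub N)
    obtain ⟨y, hy, hy'⟩ := exists_ann' hL s fun x hx => (hN x).1 (by
      have : x ∈ rsub N := hs ▸ Submodule.subset_span hx
      exact this)
    refine ⟨y, fun h => hy ((hN y).1 h), hQ1 y fun x hx => ?_⟩
    have h1 : rsub N ≤ LinearMap.ker (lmul y) := by
      rw [← hs, Submodule.span_le]
      exact fun x hx => hy' x hx
    exact h1 hx
  let K : TwoSidedIdeal R := killed ⊤ Q fun a ha r => Q.mul_mem_right a r ha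
  have hK : ∀ x, x ∈ K ↔ ∀ p ∈ Q, p * x = 0 := fun x => by
    rw [mem_killed]; simp
  have hKN : ∀ x ∈ K, x ∈ N := fun x hx =>
    (hN' y x (by rw [(hK x).1 hx y hyQ]; exact N.zero_mem)).resolve_left hy
  have htf' : ∀ c, Reg Q c → ∀ x ∈ K, c * x = 0 → x = 0 := fun c hc x hx =>
    htf c hc x (hKN x hx) ((hK x).1 hx)
  have hx1K : x1 ∈ K := (hK x1).2 hx1''
  obtain ⟨c0, hc0, hc0'⟩ : ∃ c ∈ mx R, Reg Q c := by
    by_contra hc
    refine hx1' (hsoc' _ fun μ hμ => hx1'' μ ?_)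
    by_contra h
    exact hc (exists_reg_ideal hQ (mem_mx.2 hμ) h)
  have hNp : Prm N := ⟨fun h => ((hN 1).1 h).not_isUnit isUnit_one, fun a b h =>
    hN' a b (by simpa using h 1)⟩
  have hNQ : N ≤ Q := by
    intro x hx
    by_contra hxQ
    obtain ⟨e, he, he'⟩ := exists_reg_ideal hQ hx hxQ
    obtain ⟨m, hm⟩ := (hN e).1 he
    exact (he'.pow m).notMem hQ (hm ▸ Q.zero_mem)
  obtain ⟨_, _, _, _, α, β, Ψ⟩ := exists_top hR hx0u hx0'
  exact final' Ψ hQ hK htf' (fun x hx => ((hN x).1 (hKN x hx)).not_isUnit) hx1K hx1' hc0'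
    (mem_mx.1 hc0) hsoc
    (h1 N Q hNp hQ (lt_of_le_of_ne hNQ fun h => hy (h ▸ hyQ)) ⟨x1, hx1', hx1''⟩)

/-- An artinian factor `R / (Q + R c)` is killed by a power of the radical. -/
theorem words_of_artinian {Q : TwoSidedIdeal R} {c : R}
    (h : IsArtinian R ((R ⧸ lsub Q) ⧸ LinearMap.range (rho Q c))) :
    ∃ j, ∀ w ∈ Wd R j, ∃ r, w - r * c ∈ Q := by
  obtain ⟨n, hn⟩ := IsArtinian.monotone_stabilizes (R := R)
    (M := (R ⧸ lsub Q) ⧸ LinearMap.range (rho Q c))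
    ⟨fun i => OrderDual.toDual (msub i ⊤), fun a b hab => msub_anti ⊤ hab⟩
  have he : msub n (⊤ : Submodule R ((R ⧸ lsub Q) ⧸ LinearMap.range (rho Q c))) =
      msub (n + 1) ⊤ := hn (n + 1) (Nat.le_succ n)
  have h1 : msub n (⊤ : Submodule R ((R ⧸ lsub Q) ⧸ LinearMap.range (rho Q c))) ≤ ⊥ :=
    nak_msub (he.le.trans le_sup_right)
  refine ⟨n, fun w hw => ?_⟩
  have h2 := h1 (smul_mem_msub hw (x := (LinearMap.range (rho Q c)).mkQ ((lsub Q).mkQ 1)) trivial)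
  rw [Submodule.mem_bot, ← map_smul, smul_mk, mul_one, Submodule.mkQ_apply,
    Submodule.Quotient.mk_eq_zero] at h2
  obtain ⟨q, hq⟩ := h2
  obtain ⟨r, rfl⟩ := (lsub Q).mkQ_surjective q
  rw [rho_mk, eq_comm, mk_eq_mk] at hq
  exact ⟨r, hq⟩

end Pool.Agent.Lib.MP_95d09c_al.K2
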