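import Pool.Agent.Lib.MP_95d09c_al.K2.Fin

set_option autoImplicit false

open CategoryTheory

namespace Pool.Agent.Lib.MP_95d09c_al.K2One

open Pool.Agent.Lib.MP_95d09c_al MulOpposite

/-- `KrullLE R n M`: the left module `M` has Krull dimension (Gabriel-Rentschler) at most `n`.
Dimension at most `0` means artinian; dimension at most `n + 1` means that in every descending
chain of submodules all but finitely many factors have dimension at most `n`. -/
def KrullLE (R : Type) [Ring R] : ℕ → ∀ (M : Type) [AddCommGroup M] [Module R M], Prop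
  | 0 => fun M _ _ => IsArtinian R M
  | n + 1 => fun M _ _ => ∀ L : ℕ → Submodule R M, Antitone L →
      ∃ N : ℕ, ∀ i, N ≤ i → KrullLE R n (L i ⧸ (L (i + 1)).submoduleOf (L i))

theorem KrullLE.mid {R : Type} [Ring R] (n : ℕ) : ∀ {A M C : Type} [AddCommGroup A] [Module R A]
    [AddCommGroup M] [Module R M] [AddCommGroup C] [Module R C] (f : A →ₗ[R] M) (g : M →ₗ[R] C),
    LinearMap.ker g ≤ LinearMap.range f → KrullLE R n A → KrullLE R n C → KrullLE R n M := by
  induction n with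
  | zero =>
    intro A M C _ _ _ _ _ _ f g h hA hC
    have : IsArtinian R A := hA
    have : IsArtinian R C := hC
    have : IsArtinian R (LinearMap.ker g) := isArtinian_of_le h
    exact isArtinian_of_range_eq_ker (LinearMap.ker g).subtype g (Submodule.range_subtype _)
  | succ n ih =>
    intro A M C _ _ _ _ _ _ f g h hA hC L hL
    obtain ⟨N, hN⟩ := hA (fun i => (L i).comap f) fun i j hij => Submodule.comap_mono (hL hij)
    obtain ⟨N', hN'⟩ := hC (fun i => (L i).map g) fun i j hij => Submodule.map_mono (hL hij)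
    refine ⟨max N N', fun i hi => ih (Submodule.mapQ _ _
      (f.restrict (p := (L i).comap f) (q := L i) fun x hx => hx) fun x hx => hx)
      (Submodule.mapQ _ (((L (i + 1)).map g).submoduleOf ((L i).map g))
        (g.restrict (p := L i) (q := (L i).map g) fun x hx => ⟨x, hx, rfl⟩)
        fun x hx => Submodule.mem_map_of_mem (f := g) (p := L (i + 1)) hx) ?_
      (hN i (le_of_max_le_left hi)) (hN' i (le_of_max_le_right hi))⟩
    intro q hq
    obtain ⟨⟨x, hx⟩, rfl⟩ := Submodule.mkQ_surjective _ q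
    obtain ⟨y, hy, hxy⟩ := (Submodule.Quotient.mk_eq_zero _).1 hq
    obtain ⟨a, ha⟩ := h (show x - y ∈ LinearMap.ker g by
      rw [LinearMap.mem_ker, map_sub, sub_eq_zero]; exact hxy.symm)
    refine ⟨Submodule.Quotient.mk ⟨a, ?_⟩, (Submodule.Quotient.eq _).2 ?_⟩
    · show f a ∈ L i
      rw [ha]
      exact (L i).sub_mem hx (hL (Nat.le_succ i) hy)
    · show f a - x ∈ L (i + 1)
      rw [ha, sub_sub_cancel_left]
      exact (L (i + 1)).neg_mem hy

theorem KrullLE.triv {R : Type} [Ring R] (n : ℕ) : ∀ (M : Type) [AddCommGroup M] [Module R M]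
    [Subsingleton M], KrullLE R n M := by
  induction n with
  | zero => exact fun M _ _ _ => (inferInstance : IsArtinian R M)
  | succ n ih => exact fun M _ _ _ L _ => ⟨0, fun i _ => ih _⟩

variable {R : Type} [Ring R] {n : ℕ} {M M' : Type} [AddCommGroup M] [Module R M] [AddCommGroup M']
  [Module R M']

theorem KrullLE.of_surj (h : KrullLE R n M) (g : M →ₗ[R] M') (hg : Function.Surjective g) :
    KrullLE R n M' :=
  KrullLE.mid n g (0 : M' →ₗ[R] PUnit.{1}) (fun x _ => hg x) h (KrullLE.triv n _)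

theorem KrullLE.of_inj (h : KrullLE R n M') (g : M →ₗ[R] M') (hg : ∀ x, g x = 0 → x = 0) :
    KrullLE R n M :=
  KrullLE.mid n (0 : PUnit.{1} →ₗ[R] M) g (fun x hx => ⟨0, (hg x hx).symm⟩) (KrullLE.triv n _) h

theorem KrullLE.coker (h : KrullLE R (n + 1) M) (f : M →ₗ[R] M) (hf : Function.Injective f) :
    KrullLE R n (M ⧸ LinearMap.range f) := by
  obtain ⟨N, hN⟩ := h (fun i => LinearMap.range (f ^ i)) (antitone_nat_of_succ_le fun i => by
    rintro _ ⟨x, rfl⟩
    exact ⟨f x, by rw [pow_succ]; rfl⟩)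
  have hi : Function.Injective (f ^ N) := by
    rw [Module.End.coe_pow]
    exact hf.iterate N
  let e := LinearEquiv.ofInjective (f ^ N) hi
  refine (hN N le_rfl).of_surj (Submodule.mapQ _ _ e.symm.toLinearMap ?_) ?_
  · rintro ⟨_, x, rfl⟩ ⟨y, hy⟩
    refine ⟨y, e.injective ?_⟩
    rw [LinearEquiv.coe_coe, e.apply_symm_apply]
    refine Subtype.ext ?_
    rw [pow_succ] at hy
    exact hy
  · intro q
    obtain ⟨x, rfl⟩ := Submodule.mkQ_surjective _ q
    refine ⟨Submodule.Quotient.mk (e x), ?_⟩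
    rw [Submodule.mapQ_apply, LinearEquiv.coe_coe, e.symm_apply_apply]
    rfl

theorem KrullLE.mono {A B : Submodule R M} (h : KrullLE R n (M ⧸ A)) (hAB : A ≤ B) :
    KrullLE R n (M ⧸ B) :=
  h.of_surj (Submodule.factor hAB) (Submodule.factor_surjective hAB)

theorem KrullLE.quot (h : KrullLE R n M') {A : Submodule R M} (g : M →ₗ[R] M')
    (hg : ∀ x, x ∈ A ↔ g x = 0) : KrullLE R n (M ⧸ A) :=
  h.of_inj (A.liftQ g fun x hx => (hg x).1 hx) fun q hq => by
    obtain ⟨x, rfl⟩ := A.mkQ_surjective q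
    exact (Submodule.Quotient.mk_eq_zero _).2 ((hg x).2 hq)

theorem KrullLE.inf {A B : Submodule R M} (h : KrullLE R n (M ⧸ A)) (h' : KrullLE R n (M ⧸ B)) :
    KrullLE R n (M ⧸ (A ⊓ B : Submodule R M)) := by
  have h1 : KrullLE R n ((M ⧸ A) × (M ⧸ B)) := KrullLE.mid n (LinearMap.inl R (M ⧸ A) (M ⧸ B))
    (LinearMap.snd R (M ⧸ A) (M ⧸ B)) (LinearMap.range_inl R (M ⧸ A) (M ⧸ B)).ge h h'
  refine h1.quot (A.mkQ.prod B.mkQ) fun x => ?_
  rw [Submodule.mem_inf, ← Submodule.Quotient.mk_eq_zero A, ← Submodule.Quotient.mk_eq_zero B]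
  exact Prod.mk_eq_zero.symm

theorem exists_small (R : Type) [Ring R] (n : ℕ) : ∃ T : TwoSidedIdeal R, ∀ x, x ∈ T ↔
    KrullLE R n (R ⧸ LinearMap.ker (LinearMap.toSpanSingleton R R x)) := by
  refine ⟨TwoSidedIdeal.mk'
    {x | KrullLE R n (R ⧸ LinearMap.ker (LinearMap.toSpanSingleton R R x))} ?_ ?_ ?_ ?_ ?_,
    fun x => TwoSidedIdeal.mem_mk' _ _ _ _ _ _ x⟩
  · exact (KrullLE.triv n PUnit.{1}).quot 0 fun x => by simp
  · exact fun hx hy => (KrullLE.inf hx hy).mono fun a ha => by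
      have h1 := ha.1
      have h2 := ha.2
      simp only [SetLike.mem_coe, LinearMap.mem_ker, LinearMap.toSpanSingleton_apply] at h1 h2 ⊢
      rw [smul_add, h1, h2, add_zero]
  · exact fun hx => KrullLE.mono hx fun a ha => by simpa using ha
  · exact fun {r y} hy => KrullLE.quot hy
      (Submodule.mkQ _ ∘ₗ LinearMap.toSpanSingleton R R r) fun a => by simp [mul_assoc]
  · exact fun hx => KrullLE.mono hx fun a ha => by
      simp only [LinearMap.mem_ker, LinearMap.toSpanSingleton_apply, smul_eq_mul] at ha ⊢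
      rw [← mul_assoc, ha, zero_mul]

theorem core [IsLocalRing R] [IsNoetherianRing R] [IsNoetherianRing Rᵐᵒᵖ] (hL : GDf R)
    (hR : GDf Rᵐᵒᵖ) {L : Ideal R} (h0 : L ≠ ⊥) (hd : KrullLE R 1 L) {a b : R} (hab : a * b = 0) :
    a = 0 ∨ b = 0 := by
  classical
  by_contra hc
  push Not at hc
  have := op_local (Λ := R)
  have := isNoetherian_right (Λ := R)
  obtain ⟨N, hN, hN'⟩ := exists_nil' hL
  obtain ⟨x0, hx0, hx0'⟩ : ∃ x0 ∈ N, x0 ≠ 0 := by
    rcases hN' a b (hab ▸ N.zero_mem) with h | h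
    · exact ⟨a, h, hc.1⟩
    · exact ⟨b, h, hc.2⟩
  have hx0u : ¬ IsUnit x0 := ((hN x0).1 hx0).not_isUnit
  have hsoc : ∀ x : R, (∀ μ, ¬ IsUnit μ → x * μ = 0) → x = 0 := fun x hx =>
    K2.no_right_socle' hL hx0u hx0' hx
  have hsoc' : ∀ x : R, (∀ μ, ¬ IsUnit μ → μ * x = 0) → x = 0 := fun x hx =>
    op_injective (K2.no_right_socle' hR (ν := op x0) (by simpa using hx0u) (by simpa using hx0')
      fun μ hμ => unop_injective (hx μ.unop (by simpa using hμ)))
  obtain ⟨T, hT⟩ := exists_small R 1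
  obtain ⟨x, hxL, hx⟩ := Submodule.exists_mem_ne_zero_of_ne_bot h0
  obtain ⟨Q, hQ, hQ1, ⟨x1, hx1, hx1', hx1''⟩, htf⟩ := exists_ann_prime T ((hT x).2 (hd.quot
    ((LinearMap.toSpanSingleton R R x).codRestrict L fun r => L.smul_mem r hxL)
    fun r => ⟨fun h => Subtype.ext h, fun h => congrArg Subtype.val h⟩)) hx
  have hQd : KrullLE R 1 (R ⧸ lsub Q) := by
    obtain ⟨s, hs⟩ := IsNoetherian.noetherian (rsub T)
    have key : ∀ s : Finset R, (∀ y ∈ s, y ∈ T) → KrullLE R 1
        (R ⧸ s.inf fun y => LinearMap.ker (LinearMap.toSpanSingleton R R y)) := fun s => by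
      induction s using Finset.induction_on with
      | empty => exact fun _ => (KrullLE.triv 1 PUnit.{1}).quot 0 fun x => by simp
      | insert y s _ ih =>
        intro h
        rw [Finset.inf_insert]
        exact ((hT y).1 (h y (Finset.mem_insert_self _ _))).inf
          (ih fun z hz => h z (Finset.mem_insert_of_mem hz))
    refine (key s fun y hy => (hs ▸ Submodule.subset_span hy : y ∈ rsub T)).mono
      fun y hy => hQ1 y fun z hz => ?_
    have h1 : rsub T ≤ LinearMap.ker (lmul y) := by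
      rw [← hs, Submodule.span_le]
      exact fun z hz => Finset.inf_le
        (f := fun y => LinearMap.ker (LinearMap.toSpanSingleton R R y)) hz hy
    exact h1 hz
  let K : TwoSidedIdeal R := killed ⊤ Q fun a ha r => Q.mul_mem_right a r ha
  have hK : ∀ x, x ∈ K ↔ ∀ p ∈ Q, p * x = 0 := fun x => by
    rw [mem_killed]; simp
  obtain ⟨c0, hc0, hc0'⟩ : ∃ c ∈ mx R, Reg Q c := by
    by_contra hc
    refine hx1' (hsoc' _ fun μ hμ => hx1'' μ ?_)
    by_contra h
    exact hc (exists_reg_ideal hQ (mem_mx.2 hμ) h)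
  have hxQ : x0 ∈ Q := by
    by_contra hxQ
    obtain ⟨e, he, he'⟩ := exists_reg_ideal hQ hx0 hxQ
    obtain ⟨m, hm⟩ := (hN e).1 he
    exact (he'.pow m).notMem hQ (hm ▸ Q.zero_mem)
  obtain ⟨_, _, _, _, α, β, Ψ⟩ := K2.exists_top hR hx0u hx0'
  exact K2.final' Ψ hQ hK (fun c hc y hy => htf c hc y
      ((hT y).2 (hQd.mono fun p hp => (hK y).1 hy p hp)) ((hK y).1 hy))
    (fun y hy hu => hx0' (hu.mul_left_eq_zero.1 ((hK y).1 hy x0 hxQ))) ((hK x1).2 hx1'') hx1' hc0'
    (mem_mx.1 hc0) hsoc fun c hc => K2.words_of_artinian (hQd.coker (rho Q c) (rho_inj hc))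

end Pool.Agent.Lib.MP_95d09c_al.K2One
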