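import Pool.Agent.Lib.MP_95d09c_al.Main

/-!
The last two maps of the minimal resolution of the residue division ring as a right module, in
any finite global dimension.
-/

set_option autoImplicit false
set_option linter.unusedSectionVars false

namespace Pool.Agent.Lib.MP_95d09c_al.K2

open MulOpposite

variable {R : Type} [Ring R] [IsLocalRing R] [IsNoetherianRing R] [IsNoetherianRing Rᵐᵒᵖ]

/-- The last matrix detects membership in two-sided ideals without right socle. -/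
theorem closed_of_dcc {b : Type} [Fintype b] {c : ℕ} {β : Matrix b (Fin c) R}
    {ρ : R → Matrix b b R} {ρ' : R → Matrix (Fin c) (Fin c) R} (hρ : ∀ o, β * ρ' o = ρ o * β)
    {J : TwoSidedIdeal R}
    (hD : DCC ρ' β (0 : Matrix (Fin c) Empty R) (R ⧸ lsub J))
    (hJ : ∀ x, (∀ μ, ¬ IsUnit μ → x * μ ∈ J) → x ∈ J) (z : Fin c → R)
    (hz : ∀ i, act β z i ∈ J) (j : Fin c) : z j ∈ J := by
  have := op_local (Λ := R)
  have := isNoetherian_right (Λ := R)
  let Jc : ∀ n : Type, Submodule Rᵐᵒᵖ (n → R) := fun n => Submodule.pi Set.univ fun _ => rsub J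
  let T : Submodule Rᵐᵒᵖ (Fin c → R) := (Jc _).comap (rmat β)
  let q : (Fin c → R) →+ (Fin c → R ⧸ lsub J) :=
    ((lsub J).mkQ.compLeft _).toAddMonoidHom
  obtain ⟨n, hn⟩ := hD (fun i => (msub i T).toAddSubgroup.map q)
    (fun i j hij => AddSubgroup.map_mono (msub_anti T hij))
    (by
      rintro i o _ ⟨z, hz, rfl⟩
      refine ⟨rmat (ρ' o) z, msub_map_le (rmat (ρ' o)) i (U := T) (V := T) (fun x hx k _ => ?_) hz,
        (act_mk (lsub J) (ρ' o) z).symm⟩
      change act β (act (ρ' o) x) k ∈ lsub J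
      rw [← act_mul, hρ, act_mul]
      exact act_mem (V := lsub J) (ρ o) (z := act β x) (fun l => hx l trivial) k)
    (by
      rintro i _ ⟨z, hz, rfl⟩
      refine (act_mk _ _ _).trans (funext fun k => mk_eq_zero.2 ?_)
      exact msub_le_self i T hz k trivial)
    (fun i w => by rw [zero_act]; exact AddSubgroup.zero_mem _)
  have h1 : msub n T ≤ Jc _ := by
    refine nak_msub fun x hx => ?_
    obtain ⟨y, hy, hxy⟩ := hn (n + 1) (Nat.le_succ n) ⟨x, hx, rfl⟩
    have : x = (x - y) + y := by abel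
    rw [this]
    refine Submodule.add_mem_sup (fun k _ => ?_) hy
    exact mk_eq_mk.1 (congrFun hxy k).symm
  exact mem_of_Wd hJ n _ fun w hw =>
    msub_le.1 h1 (op w) (Wd_op hw) z (fun k _ => hz k) j trivial

/-- What is used of the top of the minimal resolution. -/
structure IsTop {a b : Type} [Fintype b] {c : ℕ} (α : Matrix a b R) (β : Matrix b (Fin c) R) :
    Prop where
  pos : Nonempty (Fin c)
  zero : α * β = 0
  ex : ∀ z : b → R, (∀ i, ¬ IsUnit (z i)) → act α z = 0 → ∃ w, z = act β w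
  min : ∀ i j, ¬ IsUnit (β i j)
  inj : ∀ v : Fin c → R, act β v = 0 → v = 0
  cl : ∀ J : TwoSidedIdeal R, (∀ x, (∀ μ, ¬ IsUnit μ → x * μ ∈ J) → x ∈ J) →
    ∀ z : Fin c → R, (∀ i, act β z i ∈ J) → ∀ j, z j ∈ J

theorem dcc_next {a b c d : Type} [Fintype b] [Fintype c] [Fintype d] {α : Matrix a b R}
    {β : Matrix b c R} {γ : Matrix c d R} {ρ : R → Matrix b b R} {ρ' : R → Matrix c c R}
    (hαβ : α * β = 0) (hρ : ∀ o, β * ρ' o = ρ o * β) (hV : Van β γ R)
    (hD : ∀ (E : Type) [AddCommGroup E] [Module R E] [Module.Finite R E], DCC ρ α β E)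
    (E : Type) [AddCommGroup E] [Module R E] [Module.Finite R E] : DCC ρ' β γ E := by
  obtain ⟨e⟩ := nonempty_cover R E
  exact dcc_step hαβ hρ (hV.pi _) e.surj (hD _)

theorem exists_top_aux (m : ℕ) : ∀ (a b : Type) [Fintype b] (c : ℕ) (α : Matrix a b R)
    (β : Matrix b (Fin c) R) (ρ : R → Matrix b b R) (ρ' : R → Matrix (Fin c) (Fin c) R),
    Nonempty (Fin c) → α * β = 0 →
    (∀ z : b → R, (∀ i, ¬ IsUnit (z i)) → act α z = 0 → ∃ w, z = act β w) →
    (∀ i j, ¬ IsUnit (β i j)) → (∀ v : Fin c → R, act β v = 0 → ∀ j, ¬ IsUnit (v j)) →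
    (PD Rᵐᵒᵖ 1 (LinearMap.range (rmat β)) → ∀ v : Fin c → R, act β v = 0 → v = 0) →
    (∀ o, β * ρ' o = ρ o * β) →
    (∀ (E : Type) [AddCommGroup E] [Module R E] [Module.Finite R E], DCC ρ α β E) →
    PD Rᵐᵒᵖ (m + 1) (LinearMap.range (rmat β)) →
    ∃ (a b : Type) (_ : Fintype b) (c : ℕ) (α : Matrix a b R) (β : Matrix b (Fin c) R),
      IsTop α β := by
  have fin : ∀ (a b : Type) [Fintype b] (c : ℕ) (α : Matrix a b R)
      (β : Matrix b (Fin c) R) (ρ : R → Matrix b b R) (ρ' : R → Matrix (Fin c) (Fin c) R),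
      Nonempty (Fin c) → α * β = 0 →
      (∀ z : b → R, (∀ i, ¬ IsUnit (z i)) → act α z = 0 → ∃ w, z = act β w) →
      (∀ i j, ¬ IsUnit (β i j)) → (∀ v : Fin c → R, act β v = 0 → v = 0) →
      (∀ o, β * ρ' o = ρ o * β) →
      (∀ (E : Type) [AddCommGroup E] [Module R E] [Module.Finite R E], DCC ρ α β E) →
      IsTop α β := by
    intro a b _ c α β ρ ρ' h1 h2 h3 h4 h5 h6 h7
    refine ⟨h1, h2, h3, h4, h5, fun J hJ => closed_of_dcc h6 ?_ hJ⟩
    exact dcc_next h2 h6 (fun z hz => ⟨0, by rw [h5 z hz, act_zero]⟩) h7 _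
  induction m with
  | zero =>
    intro a b _ c α β ρ ρ' h1 h2 h3 h4 _ h6 h7 h8 h9
    exact ⟨a, b, _, c, α, β, fin a b c α β ρ ρ' h1 h2 h3 h4 (h6 h9) h7 h8⟩
  | succ m ih =>
    intro a b _ c α β ρ ρ' h1 h2 h3 h4 h5 _ h7 h8 h9
    by_cases hi : ∀ v : Fin c → R, act β v = 0 → v = 0
    · exact ⟨a, b, _, c, α, β, fin a b c α β ρ ρ' h1 h2 h3 h4 hi h7 h8⟩
    push Not at hi
    obtain ⟨v, hv, hv0⟩ := hi
    obtain ⟨g, γ, r, k1, k2⟩ := exists_mat (LinearMap.ker (rmat β))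
    have hz := mul_eq_zero_of_range r
    have hV := van_of_range r
    have hl : ∀ o, ∃ x : Matrix (Fin g) (Fin g) R, γ * x = ρ' o * γ := fun o =>
      hV.lift (ρ' o * γ) (by rw [← Matrix.mul_assoc, h7, Matrix.mul_assoc, hz, Matrix.mul_zero])
    choose ρ'' hρ'' using hl
    refine ih b (Fin c) g β γ ρ' ρ'' ?_ hz (fun z _ h => hV z h) (fun i j => ?_) k1
      (fun h => k2 (r ▸ h)) hρ'' (dcc_next h2 h7 hV h8) (r ▸ pd_ker_rmat β h9)
    · by_contra hc
      obtain ⟨w, hw⟩ := hV v hv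
      have : IsEmpty (Fin g) := not_nonempty_iff.1 hc
      exact hv0 (by rw [hw, Subsingleton.elim w 0, act_zero])
    · rw [← act_single γ]
      exact h5 _ (act_act hz _) i

theorem exists_top (hR : GDf Rᵐᵒᵖ) {ν : R} (hν : ¬ IsUnit ν) (hν0 : ν ≠ 0) :
    ∃ (a b : Type) (_ : Fintype b) (c : ℕ) (α : Matrix a b R) (β : Matrix b (Fin c) R),
      IsTop α β := by
  obtain ⟨n, hn⟩ := hR
  obtain ⟨g, φ, hφ, k1, k2⟩ := exists_mat
    ((rsub (mx R)).comap (LinearMap.proj () : (Unit → R) →ₗ[Rᵐᵒᵖ] R))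
  have h1 : ∀ j, ¬ IsUnit (φ () j) := fun j => by
    have : rmat φ (Pi.single j 1) ∈ LinearMap.range (rmat φ) := ⟨_, rfl⟩
    rw [hφ] at this
    rw [← act_single φ]
    exact mem_mx.1 this
  have h2 : ∀ μ, ¬ IsUnit μ → ∃ r : Fin g → R, μ = act φ r () := fun μ hμ => by
    have : (fun _ => μ) ∈ LinearMap.range (rmat φ) := by
      rw [hφ]; exact mem_mx.2 hμ
    obtain ⟨r, hr⟩ := this
    exact ⟨r, (congrFun hr ()).symm⟩
  let ρ : R → Matrix Unit Unit R := fun r => Matrix.of fun _ _ => r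
  have hl : ∀ r, ∃ x : Matrix (Fin g) (Fin g) R, φ * x = ρ r * φ := fun r =>
    exists_mul_eq φ (ρ r * φ) fun k => by
      obtain ⟨w, hw⟩ := h2 _ (nu_mul_left r (h1 k))
      exact ⟨w, funext fun _ => by rw [← hw]; simp [ρ, Matrix.mul_apply]⟩
  choose ρ' hρ' using hl
  refine exists_top_aux n Unit Unit g 0 φ ρ ρ' ?_ (Matrix.zero_mul _) (fun z hz _ => ?_)
    (fun _ j => h1 j) k1 (fun h => k2 (hφ ▸ h)) hρ'
    (fun E _ _ _ => dcc_base (fun r => ⟨r, rfl⟩) _ h1 h2) (hn _)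
  · by_contra hc
    obtain ⟨w, hw⟩ := h2 ν hν
    have : IsEmpty (Fin g) := not_nonempty_iff.1 hc
    exact hν0 (by rw [hw, Subsingleton.elim w 0, act_zero]; rfl)
  · obtain ⟨w, hw⟩ := h2 _ (hz ())
    exact ⟨w, funext fun _ => hw⟩

theorem no_right_socle' {Λ : Type} [Ring Λ] [IsLocalRing Λ] [IsNoetherianRing Λ] (hG : GDf Λ)
    {ν : Λ} (hν : ¬ IsUnit ν) (hν0 : ν ≠ 0) {x : Λ}
    (hx : ∀ μ, ¬ IsUnit μ → x * μ = 0) : x = 0 := by
  classical
  by_contra hx0
  obtain ⟨n, hn⟩ := hG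
  obtain ⟨c⟩ := nonempty_cover Λ (Λ ⧸ lsub (mx Λ))
  have h1 := cover_inj_of_socle hx hx0 n _ (hn _) c
  obtain ⟨z, hz⟩ := c.surj ((lsub (mx Λ)).mkQ 1)
  have h2 : ∀ j, z j = 0 := by
    intro j
    exfalso
    have h3 : c.p (ν • Pi.single j 1) = 0 := by
      rw [map_smul]
      exact quot_killed _ (mem_mx.2 hν) _
    have h4 := congrFun ((injective_iff_map_eq_zero _).1 h1 _ h3) j
    exact hν0 (by simpa using h4)
  rw [show z = 0 from funext h2, map_zero, eq_comm, mk_eq_zero, mem_mx] at hz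
  exact hz isUnit_one

theorem gdf_of_res' {Λ : Type} [Ring Λ] (h : ∃ n : ℕ, ∀ M : ModuleCat.{0} Λ,
    ∃ (P : ℕ → ModuleCat.{0} Λ) (d : ∀ i : ℕ, P (i + 1) ⟶ P i) (ε : P 0 ⟶ M),
    (∀ i, Module.Projective Λ (P i)) ∧ Function.Surjective ε.hom ∧
    LinearMap.range (d 0).hom = LinearMap.ker ε.hom ∧
    (∀ i, LinearMap.range (d (i + 1)).hom = LinearMap.ker (d i).hom) ∧
    (∀ i, n < i → Subsingleton (P i))) :
    ∃ n, ∀ (E : Type) [AddCommGroup E] [Module Λ E], PD Λ (n + 1) E := by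
  obtain ⟨n, h⟩ := h
  refine ⟨n, fun E _ _ => ?_⟩
  obtain ⟨P, d, ε, hP, hε, h0, hd, hs⟩ := h (ModuleCat.of Λ E)
  have key : ∀ j i, i + j = n → PD Λ j (LinearMap.range (d i).hom) := by
    intro j
    induction j with
    | zero =>
      intro i hi
      have := hs (i + 1) (by omega)
      have : Subsingleton (LinearMap.range (d i).hom) :=
        (LinearMap.surjective_rangeRestrict (d i).hom).subsingleton
      exact pd_zero
    | succ j ih =>
      intro i hi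
      have := hP (i + 1)
      refine pd_quot (ι := (LinearMap.range (d (i + 1)).hom).subtype)
        (p := (d i).hom.rangeRestrict) (Submodule.injective_subtype _)
        (LinearMap.surjective_rangeRestrict _) ?_ (ih (i + 1) (by omega))
      rw [LinearMap.exact_iff, LinearMap.ker_rangeRestrict, Submodule.range_subtype, hd i]
  have := hP 0
  refine pd_quot (ι := (LinearMap.range (d 0).hom).subtype) (p := ε.hom)
    (Submodule.injective_subtype _) hε ?_ (key n 0 (zero_add n))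
  rw [LinearMap.exact_iff, Submodule.range_subtype, h0]

end Pool.Agent.Lib.MP_95d09c_al.K2
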